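import Mathlib

set_option autoImplicit false

/-!
Disproof of: equal lazy burning numbers force equal (round-based) burning numbers, for
proportional spread in hypergraphs.  The hypergraph used is a path `0 - 1 - ... - 2m` (edges of
size two) together with one large edge formed by all the even vertices.
-/

namespace Pool.Agent.Results.MP_6677ae_co.LazyEqualBurnGap

open Finset

variable {V : Type} [Fintype V] [DecidableEq V]

/-- One application of the spread rule with proportion `p` on the hypergraph with edge set `E`: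
`F` stays on fire, and every edge `e` having at least `⌈p|e|⌉` burning vertices burns. -/
noncomputable def spread (p : ℝ) (E : Finset (Finset V)) (F : Finset V) : Finset V :=
  F ∪ (E.filter (fun e => ⌈p * (e.card : ℝ)⌉₊ ≤ (e ∩ F).card)).biUnion id

/-- `BurnsFrom p E F l`: starting from the burning set `F`, in each round the fire spreads and at
the same time the player lights the next vertex of the list `l`, which must not be burning yet;
after the last round every vertex burns. -/
def BurnsFrom (p : ℝ) (E : Finset (Finset V)) : Finset V → List V → Prop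
  | F, [] => F = Finset.univ
  | F, u :: l => u ∉ F ∧ BurnsFrom p E (insert u (spread p E F)) l

/-- The round-based burning number: least length of a burning sequence. -/
noncomputable def burningNumber (p : ℝ) (E : Finset (Finset V)) : ℕ :=
  sInf {k : ℕ | ∃ l : List V, l.length = k ∧ BurnsFrom p E ∅ l}

/-- `S` is a lazy burning set: iterating the spread rule from `S` burns everything. -/
def IsLazyBurning (p : ℝ) (E : Finset (Finset V)) (S : Finset V) : Prop :=
  ∃ m : ℕ, (spread p E)^[m] S = Finset.univ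

/-- The lazy burning number: least size of a lazy burning set. -/
noncomputable def lazyNumber (p : ℝ) (E : Finset (Finset V)) : ℕ :=
  sInf {k : ℕ | ∃ S : Finset V, S.card = k ∧ IsLazyBurning p E S}

/-! ### General lemmas -/

omit [Fintype V] in
lemma subset_spread (p : ℝ) (E : Finset (Finset V)) (F : Finset V) : F ⊆ spread p E F :=
  Finset.subset_union_left

omit [Fintype V] in
lemma mem_spread {p : ℝ} {E : Finset (Finset V)} {F : Finset V} {v : V} :
    v ∈ spread p E F ↔ v ∈ F ∨ ∃ e ∈ E, ⌈p * (e.card : ℝ)⌉₊ ≤ (e ∩ F).card ∧ v ∈ e := by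
  unfold spread
  simp only [Finset.mem_union, Finset.mem_biUnion, Finset.mem_filter, id]
  constructor
  · rintro (h | ⟨e, ⟨h1, h2⟩, h3⟩)
    · exact Or.inl h
    · exact Or.inr ⟨e, h1, h2, h3⟩
  · rintro (h | ⟨e, h1, h2, h3⟩)
    · exact Or.inl h
    · exact Or.inr ⟨e, ⟨h1, h2⟩, h3⟩

/-- A burning sequence always exists. -/
lemma exists_burns (p : ℝ) (E : Finset (Finset V)) :
    ∀ (k : ℕ) (F : Finset V), (Finset.univ \ F).card ≤ k → ∃ l : List V, BurnsFrom p E F l := by
  intro k
  induction k with
  | zero =>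
    intro F hF
    refine ⟨[], ?_⟩
    have h0 : (Finset.univ \ F) = ∅ := Finset.card_eq_zero.mp (Nat.le_zero.mp hF)
    have h1 : Finset.univ ⊆ F := Finset.sdiff_eq_empty_iff_subset.mp h0
    exact Finset.eq_univ_iff_forall.mpr (fun x => h1 (Finset.mem_univ x))
  | succ k ih =>
    intro F hF
    by_cases hu : F = Finset.univ
    · exact ⟨[], hu⟩
    · obtain ⟨u, hu'⟩ : ∃ u, u ∉ F := by
        by_contra hcon
        push Not at hcon
        exact hu (Finset.eq_univ_iff_forall.mpr hcon)
      have hlt : (Finset.univ \ (insert u (spread p E F))).card < (Finset.univ \ F).card := by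
        apply Finset.card_lt_card
        constructor
        · intro x hx
          simp only [Finset.mem_sdiff, Finset.mem_univ, true_and, Finset.mem_insert, not_or] at hx ⊢
          exact fun hxF => hx.2 (subset_spread p E F hxF)
        · intro hsub
          have hmem : u ∈ Finset.univ \ F := Finset.mem_sdiff.mpr ⟨Finset.mem_univ u, hu'⟩
          have hmem2 := hsub hmem
          exact (Finset.mem_sdiff.mp hmem2).2 (Finset.mem_insert_self _ _)
      obtain ⟨l, hl⟩ := ih (insert u (spread p E F)) (by omega)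
      exact ⟨u :: l, hu', hl⟩

/-- Lower bound on the burning number from a lower bound on all burning sequences. -/
lemma le_burningNumber {p : ℝ} {E : Finset (Finset V)} {K : ℕ}
    (h : ∀ l : List V, BurnsFrom p E ∅ l → K ≤ l.length) : K ≤ burningNumber p E := by
  obtain ⟨l, hl⟩ := exists_burns p E _ (∅ : Finset V) le_rfl
  have hne : {k : ℕ | ∃ l : List V, l.length = k ∧ BurnsFrom p E ∅ l}.Nonempty :=
    ⟨l.length, l, rfl, hl⟩
  obtain ⟨l', hl1, hl2⟩ := Nat.sInf_mem hne
  unfold burningNumber
  rw [← hl1]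
  exact h l' hl2

lemma burningNumber_le {p : ℝ} {E : Finset (Finset V)} (l : List V) (hl : BurnsFrom p E ∅ l) :
    burningNumber p E ≤ l.length :=
  Nat.sInf_le ⟨l, rfl, hl⟩

/-! ### The hypergraph -/

/-- The even vertices of `Fin (2m+1)`. -/
def evens (m : ℕ) : Finset (Fin (2 * m + 1)) := Finset.univ.filter (fun i => i.val % 2 = 0)

/-- The path edge joining `i` and `i+1`. -/
def pathEdge (m : ℕ) (i : Fin (2 * m)) : Finset (Fin (2 * m + 1)) := {i.castSucc, i.succ}

/-- The path `0 - 1 - ... - 2m` plus the edge of even vertices. -/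
def H (m : ℕ) : Finset (Finset (Fin (2 * m + 1))) :=
  insert (evens m) (Finset.univ.image (pathEdge m))

lemma evens_card (m : ℕ) : (evens m).card = m + 1 := by
  have h : evens m = Finset.univ.image (fun j : Fin (m + 1) => (⟨2 * j.val, by omega⟩ : Fin (2 * m + 1))) := by
    ext i
    simp only [evens, Finset.mem_filter, Finset.mem_univ, true_and, Finset.mem_image]
    constructor
    · intro hi
      refine ⟨⟨i.val / 2, by omega⟩, ?_⟩
      ext
      simp only
      omega
    · rintro ⟨j, hj⟩
      rw [← hj]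
      simp only
      omega
  rw [h, Finset.card_image_of_injective]
  · simp
  · intro a b hab
    simp only [Fin.mk.injEq] at hab
    ext
    omega

lemma pathEdge_card (m : ℕ) (i : Fin (2 * m)) : (pathEdge m i).card = 2 := by
  unfold pathEdge
  rw [Finset.card_pair]
  intro h
  have := congrArg Fin.val h
  simp at this

lemma mem_pathEdge {m : ℕ} {i : Fin (2 * m)} {v : Fin (2 * m + 1)} :
    v ∈ pathEdge m i ↔ v.val = i.val ∨ v.val = i.val + 1 := by
  unfold pathEdge
  simp only [Finset.mem_insert, Finset.mem_singleton, Fin.ext_iff, Fin.val_castSucc, Fin.val_succ]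

lemma mem_H {m : ℕ} {e : Finset (Fin (2 * m + 1))} :
    e ∈ H m ↔ e = evens m ∨ ∃ i : Fin (2 * m), pathEdge m i = e := by
  unfold H
  simp

/-- every edge has at least two vertices -/
lemma H_card_ge (m : ℕ) (hm : 1 ≤ m) : ∀ e ∈ H m, 2 ≤ e.card := by
  intro e he
  rcases mem_H.mp he with rfl | ⟨i, rfl⟩
  · rw [evens_card]; omega
  · rw [pathEdge_card]

/-- linearity: two different edges share at most one vertex -/
lemma H_linear (m : ℕ) : ∀ e ∈ H m, ∀ f ∈ H m, e ≠ f → (e ∩ f).card ≤ 1 := by
  intro e he f hf hne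
  rw [Finset.card_le_one]
  intro a ha b hb
  rw [Finset.mem_inter] at ha hb
  obtain ⟨ha1, ha2⟩ := ha
  obtain ⟨hb1, hb2⟩ := hb
  rcases mem_H.mp he with rfl | ⟨i, rfl⟩ <;> rcases mem_H.mp hf with rfl | ⟨j, rfl⟩
  · exact absurd rfl hne
  · rw [mem_pathEdge] at ha2 hb2
    simp only [evens, Finset.mem_filter, Finset.mem_univ, true_and] at ha1 hb1
    ext
    omega
  · rw [mem_pathEdge] at ha1 hb1
    simp only [evens, Finset.mem_filter, Finset.mem_univ, true_and] at ha2 hb2
    ext
    omega
  · have hij : i.val ≠ j.val := fun h => hne (by rw [Fin.ext h])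
    rw [mem_pathEdge] at ha1 ha2 hb1 hb2
    ext
    omega

/-! ### Thresholds -/

lemma ceil_pos_of {p : ℝ} (hp : 0 < p) {k : ℕ} (hk : 1 ≤ k) : 1 ≤ ⌈p * (k : ℝ)⌉₊ := by
  rw [Nat.one_le_ceil_iff]
  positivity

/-- spreading from nothing yields nothing -/
lemma spread_empty (m : ℕ) (hm : 1 ≤ m) {p : ℝ} (hp : 0 < p) : spread p (H m) ∅ = ∅ := by
  ext v
  rw [mem_spread]
  simp only [Finset.notMem_empty, Finset.inter_empty, Finset.card_empty, false_or, iff_false,
    not_exists, not_and]
  intro e he hle
  have h1 := H_card_ge m hm e he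
  have h2 := ceil_pos_of hp (k := e.card) (by omega)
  omega

lemma step_path {m : ℕ} {p : ℝ} (hp2 : ⌈p * (2 : ℝ)⌉₊ ≤ 1) (F : Finset (Fin (2 * m + 1)))
    (u v : Fin (2 * m + 1)) (hu : u ∈ F) (huv : v.val = u.val + 1 ∨ u.val = v.val + 1) :
    v ∈ spread p (H m) F := by
  rw [mem_spread]
  right
  have key : ∃ i : Fin (2 * m), u ∈ pathEdge m i ∧ v ∈ pathEdge m i := by
    rcases huv with h | h
    · exact ⟨⟨u.val, by omega⟩, by rw [mem_pathEdge]; simp, by rw [mem_pathEdge]; simp [h]⟩
    · exact ⟨⟨v.val, by omega⟩, by rw [mem_pathEdge]; simp [h], by rw [mem_pathEdge]; simp⟩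
  obtain ⟨i, hui, hvi⟩ := key
  refine ⟨pathEdge m i, mem_H.mpr (Or.inr ⟨i, rfl⟩), ?_, hvi⟩
  rw [pathEdge_card]
  have h1 : 1 ≤ (pathEdge m i ∩ F).card :=
    Finset.card_pos.mpr ⟨u, Finset.mem_inter.mpr ⟨hui, hu⟩⟩
  exact le_trans (by exact_mod_cast hp2) h1

/-- the lazy burning number is one as soon as two-vertex edges have threshold one -/
lemma lazy_one (m : ℕ) (hm : 1 ≤ m) {p : ℝ} (hp : 0 < p) (hp2 : ⌈p * (2 : ℝ)⌉₊ ≤ 1) :
    lazyNumber p (H m) = 1 := by
  have hlazy : IsLazyBurning p (H m) {(0 : Fin (2 * m + 1))} := by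
    have key : ∀ k : ℕ, ∀ v : Fin (2 * m + 1), v.val ≤ k →
        v ∈ (spread p (H m))^[k] {(0 : Fin (2 * m + 1))} := by
      intro k
      induction k with
      | zero =>
        intro v hv
        have : v = 0 := by ext; simpa using hv
        simp [this]
      | succ k ih =>
        intro v hv
        rw [Function.iterate_succ_apply']
        by_cases hvk : v.val ≤ k
        · exact subset_spread _ _ _ (ih v hvk)
        · have hv1 : v.val = k + 1 := by omega
          exact step_path hp2 _ ⟨k, by omega⟩ v (ih ⟨k, by omega⟩ le_rfl) (Or.inl hv1)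
    refine ⟨2 * m, Finset.eq_univ_iff_forall.mpr (fun v => key _ v (by omega))⟩
  have hmem : (1 : ℕ) ∈ {k : ℕ | ∃ S : Finset (Fin (2 * m + 1)), S.card = k ∧ IsLazyBurning p (H m) S} :=
    ⟨{0}, by simp, hlazy⟩
  apply le_antisymm
  · exact Nat.sInf_le hmem
  · unfold lazyNumber
    rw [Nat.one_le_iff_ne_zero]
    intro h0
    have h1 := Nat.sInf_mem ⟨_, hmem⟩
    rw [h0] at h1
    obtain ⟨S, hS, k, hk⟩ := h1
    rw [Finset.card_eq_zero] at hS
    subst hS
    have h2 : ∀ k : ℕ, (spread p (H m))^[k] ∅ = ∅ := by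
      intro k
      induction k with
      | zero => rfl
      | succ k ih => rw [Function.iterate_succ_apply', ih, spread_empty m hm hp]
    rw [h2 k] at hk
    have := Finset.mem_univ (0 : Fin (2 * m + 1))
    rw [← hk] at this
    simp at this

/-! ### Upper bound for small `p` -/

lemma burn_le_three (m : ℕ) (hm : 2 ≤ m) {p : ℝ} (hp2 : ⌈p * (2 : ℝ)⌉₊ ≤ 1)
    (hpm : ⌈p * ((m + 1 : ℕ) : ℝ)⌉₊ ≤ 1) : burningNumber p (H m) ≤ 3 := by
  set v0 : Fin (2 * m + 1) := ⟨0, by omega⟩ with hv0
  set v1 : Fin (2 * m + 1) := ⟨1, by omega⟩ with hv1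
  set v3 : Fin (2 * m + 1) := ⟨3, by omega⟩ with hv3
  have hs0 : ∀ F : Finset (Fin (2 * m + 1)), v0 ∈ F → ∀ v : Fin (2 * m + 1), v.val % 2 = 0 →
      v ∈ spread p (H m) F := by
    intro F hF v hv
    rw [mem_spread]
    right
    refine ⟨evens m, mem_H.mpr (Or.inl rfl), ?_, by simp [evens, hv]⟩
    rw [evens_card]
    refine le_trans hpm (Finset.card_pos.mpr ⟨v0, Finset.mem_inter.mpr ⟨by simp [evens, hv0], hF⟩⟩)
  -- the state before lighting the third vertex
  have h3 : ∀ F : Finset (Fin (2 * m + 1)), (∀ v : Fin (2 * m + 1), v.val % 2 = 0 → v ∈ F) →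
      insert v3 (spread p (H m) F) = Finset.univ := by
    intro F hF
    rw [Finset.eq_univ_iff_forall]
    intro v
    apply Finset.mem_insert_of_mem
    rcases Nat.mod_two_eq_zero_or_one v.val with h | h
    · exact subset_spread _ _ _ (hF v h)
    · exact step_path hp2 F ⟨v.val - 1, by omega⟩ v (hF _ (by simp only; omega))
        (Or.inl (by simp only; omega))
  by_cases hp : 0 < p
  · have hE : spread p (H m) (∅ : Finset (Fin (2 * m + 1))) = ∅ := spread_empty m (by omega) hp
    have hF1 : insert v0 (spread p (H m) (∅ : Finset (Fin (2 * m + 1)))) = {v0} := by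
      rw [hE]; rfl
    have hn1 : v1 ∉ ({v0} : Finset (Fin (2 * m + 1))) := by
      simp [hv0, hv1]
    by_cases hin : v3 ∈ insert v1 (spread p (H m) ({v0} : Finset (Fin (2 * m + 1))))
    · -- impossible, but easier: the third vertex does not burn yet
      exfalso
      rw [Finset.mem_insert, mem_spread] at hin
      rcases hin with h | h | ⟨e, he, hle, hve⟩
      · simp [hv1, hv3] at h
      · simp [hv0, hv3] at h
      · rcases mem_H.mp he with rfl | ⟨i, rfl⟩
        · simp [evens, hv3] at hve
        · rw [mem_pathEdge] at hve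
          have hc : (pathEdge m i ∩ {v0}).card = 0 := by
            rw [Finset.card_eq_zero]
            ext x
            simp only [Finset.mem_inter, Finset.mem_singleton, Finset.notMem_empty, iff_false,
              not_and]
            intro hx hx0
            rw [mem_pathEdge, hx0] at hx
            simp only [hv0, hv3] at hx hve
            omega
          rw [hc, pathEdge_card] at hle
          have := ceil_pos_of hp (k := 2) (by omega)
          omega
    · have hb : BurnsFrom p (H m) (∅ : Finset (Fin (2 * m + 1))) [v0, v1, v3] := by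
        refine ⟨by simp, ?_⟩
        rw [hF1]
        refine ⟨hn1, hin, ?_⟩
        apply h3
        intro v hv
        exact Finset.mem_insert_of_mem (hs0 _ (Finset.mem_singleton_self _) v hv)
      exact burningNumber_le _ hb
  · -- for nonpositive `p` everything burns at once
    push Not at hp
    have hz : ∀ F : Finset (Fin (2 * m + 1)), spread p (H m) F = Finset.univ := by
      intro F
      rw [Finset.eq_univ_iff_forall]
      intro v
      rw [mem_spread]
      right
      have hex : ∃ i : Fin (2 * m), v ∈ pathEdge m i := by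
        by_cases h : v.val = 0
        · exact ⟨⟨0, by omega⟩, by rw [mem_pathEdge]; left; simpa using h⟩
        · exact ⟨⟨v.val - 1, by omega⟩, by rw [mem_pathEdge]; right; simp only; omega⟩
      obtain ⟨i, hi⟩ := hex
      refine ⟨pathEdge m i, mem_H.mpr (Or.inr ⟨i, rfl⟩), ?_, hi⟩
      rw [pathEdge_card]
      have : ⌈p * ((2 : ℕ) : ℝ)⌉₊ = 0 := by
        rw [Nat.ceil_eq_zero]
        push_cast
        linarith
      rw [this]
      exact Nat.zero_le _
    have hb : BurnsFrom p (H m) (∅ : Finset (Fin (2 * m + 1))) [v0] := by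
      refine ⟨by simp, ?_⟩
      rw [hz]
      simp [BurnsFrom]
    exact le_trans (burningNumber_le _ hb) (by simp)

/-! ### Lower bound for `q = 1/2` -/

/-- If every burning vertex is within distance `r` of one of at most `r` centres, then at most
`r (2r+1)` vertices burn. -/
lemma card_le_of_cover {m r : ℕ} (F : Finset (Fin (2 * m + 1))) (U : Finset ℕ) (hU : U.card ≤ r)
    (hF : ∀ v ∈ F, ∃ u ∈ U, u ≤ v.val + r ∧ v.val ≤ u + r) : F.card ≤ r * (2 * r + 1) := by
  have h1 : F.image Fin.val ⊆ U.biUnion (fun u => Finset.Icc (u - r) (u + r)) := by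
    intro x hx
    obtain ⟨v, hv, rfl⟩ := Finset.mem_image.mp hx
    obtain ⟨u, hu, h1, h2⟩ := hF v hv
    rw [Finset.mem_biUnion]
    exact ⟨u, hu, by rw [Finset.mem_Icc]; omega⟩
  have h2 : (F.image Fin.val).card = F.card :=
    Finset.card_image_of_injective F Fin.val_injective
  rw [← h2]
  refine le_trans (Finset.card_le_card h1) ?_
  refine le_trans (Finset.card_biUnion_le_card_mul U _ (2 * r + 1) ?_) (Nat.mul_le_mul_right _ hU)
  intro u _
  rw [Nat.card_Icc]
  omega

lemma lower_aux {m K : ℕ} (hm : 2 * (K * (2 * K + 1)) ≤ m) :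
    ∀ (l : List (Fin (2 * m + 1))) (r : ℕ) (F : Finset (Fin (2 * m + 1))) (U : Finset ℕ),
      U.card ≤ r → (∀ v ∈ F, ∃ u ∈ U, u ≤ v.val + r ∧ v.val ≤ u + r) →
      BurnsFrom (1 / 2 : ℝ) (H m) F l → K ≤ r + l.length := by
  intro l
  induction l with
  | nil =>
    intro r F U hU hF hb
    by_contra hlt
    simp only [List.length_nil, add_zero, not_le] at hlt
    have h1 := card_le_of_cover F U hU hF
    have h2 : F = Finset.univ := hb
    rw [h2, Finset.card_univ, Fintype.card_fin] at h1
    have h3 : r * (2 * r + 1) ≤ K * (2 * K + 1) := Nat.mul_le_mul (by omega) (by omega)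
    omega
  | cons u l ih =>
    intro r F U hU hF hb
    obtain ⟨hu, hb'⟩ := hb
    by_cases hK : K ≤ r
    · omega
    push Not at hK
    have h1 := card_le_of_cover F U hU hF
    have h3 : r * (2 * r + 1) ≤ K * (2 * K + 1) := Nat.mul_le_mul (by omega) (by omega)
    have h4 := ih (r + 1) (insert u (spread (1 / 2 : ℝ) (H m) F)) (insert u.val U)
      (le_trans (Finset.card_insert_le _ _) (by omega)) ?_ hb'
    · simp only [List.length_cons]
      omega
    · intro v hv
      rw [Finset.mem_insert, mem_spread] at hv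
      rcases hv with rfl | hv | ⟨e, he, hle, hve⟩
      · exact ⟨v.val, Finset.mem_insert_self _ _, by omega, by omega⟩
      · obtain ⟨w, hw, hw1, hw2⟩ := hF v hv
        exact ⟨w, Finset.mem_insert_of_mem hw, by omega, by omega⟩
      · rcases mem_H.mp he with rfl | ⟨i, rfl⟩
        · -- the large edge does not reach its threshold
          exfalso
          rw [evens_card] at hle
          have h5 : (evens m ∩ F).card ≤ F.card := Finset.card_le_card Finset.inter_subset_right
          have h6 : (1 / 2 : ℝ) * ((m + 1 : ℕ) : ℝ) ≤ ((evens m ∩ F).card : ℝ) :=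
            Nat.ceil_le.mp hle
          have h7 : ((m + 1 : ℕ) : ℝ) ≤ 2 * ((evens m ∩ F).card : ℝ) := by linarith
          have h8 : m + 1 ≤ 2 * (evens m ∩ F).card := by exact_mod_cast h7
          omega
        · -- a path edge with a burning vertex
          have hpos : 1 ≤ (pathEdge m i ∩ F).card := by
            refine le_trans ?_ hle
            rw [pathEdge_card]
            exact ceil_pos_of (by norm_num) (by omega)
          obtain ⟨x, hx⟩ := Finset.card_pos.mp hpos
          rw [Finset.mem_inter, mem_pathEdge] at hx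
          obtain ⟨hx1, hx2⟩ := hx
          rw [mem_pathEdge] at hve
          obtain ⟨w, hw, hw1, hw2⟩ := hF x hx2
          exact ⟨w, Finset.mem_insert_of_mem hw, by omega, by omega⟩

lemma lower (m K : ℕ) (hm : 2 * (K * (2 * K + 1)) ≤ m) :
    K ≤ burningNumber (1 / 2 : ℝ) (H m) := by
  apply le_burningNumber
  intro l hl
  have := lower_aux hm l 0 ∅ ∅ (by simp) (by simp) hl
  omega

/-- **Main result.** For every `N` there are a finite linear hypergraph with all edges of size at
least two and proportions `p, q` in `(0,1)` such that both lazy burning numbers are `1`, while the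
round-based burning numbers differ by at least `N`.  In particular (take `N = 1`) equality of the
lazy burning numbers does not imply equality of the burning numbers. -/
theorem result : ∀ N : ℕ, ∃ (n : ℕ) (E : Finset (Finset (Fin (n + 1)))) (p q : ℝ),
    0 < p ∧ p < 1 ∧ 0 < q ∧ q < 1 ∧
    (∀ e ∈ E, 2 ≤ e.card) ∧
    (∀ e ∈ E, ∀ f ∈ E, e ≠ f → (e ∩ f).card ≤ 1) ∧
    lazyNumber p E = 1 ∧ lazyNumber q E = 1 ∧
    burningNumber p E + N ≤ burningNumber q E := by
  intro N
  set K : ℕ := N + 3 with hK
  set m : ℕ := 2 * (K * (2 * K + 1)) with hm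
  have hm2 : 2 ≤ m := by
    have : 1 ≤ K * (2 * K + 1) := Nat.mul_pos (by omega) (by omega)
    omega
  have hmpos : (0 : ℝ) < ((m + 1 : ℕ) : ℝ) := by positivity
  have hp0 : (0 : ℝ) < 1 / ((m + 1 : ℕ) : ℝ) := by positivity
  have hge : (3 : ℝ) ≤ ((m + 1 : ℕ) : ℝ) := by exact_mod_cast (by omega : 3 ≤ m + 1)
  have hple : 1 / ((m + 1 : ℕ) : ℝ) ≤ 1 / 3 := by
    apply one_div_le_one_div_of_le (by norm_num) hge
  have hp2 : ⌈(1 / ((m + 1 : ℕ) : ℝ)) * (2 : ℝ)⌉₊ ≤ 1 := by
    rw [Nat.ceil_le]
    push_cast at hple ⊢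
    linarith
  have hpm : ⌈(1 / ((m + 1 : ℕ) : ℝ)) * ((m + 1 : ℕ) : ℝ)⌉₊ ≤ 1 := by
    rw [one_div, inv_mul_cancel₀ hmpos.ne']
    simp
  have hq2 : ⌈(1 / 2 : ℝ) * (2 : ℝ)⌉₊ ≤ 1 := by
    rw [Nat.ceil_le]
    norm_num
  refine ⟨2 * m, H m, 1 / ((m + 1 : ℕ) : ℝ), 1 / 2, hp0, by linarith, by norm_num, by norm_num,
    H_card_ge m (by omega), H_linear m, lazy_one m (by omega) hp0 hp2,
    lazy_one m (by omega) (by norm_num) hq2, ?_⟩
  have h1 := burn_le_three m hm2 hp2 hpm
  have h2 := lower m K le_rfl
  omega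

end Pool.Agent.Results.MP_6677ae_co.LazyEqualBurnGap
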